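import Pool.Agent.Work.MP_9d4fac_cf.B_FIN
import Pool.Agent.Work.MP_9d4fac_cf.B_FAR
import Pool.Agent.Work.MP_9d4fac_cf.B_ZIG
import Pool.Agent.Work.MP_9d4fac_cf.B_R1
import Pool.Agent.Work.MP_9d4fac_cf.B_R2
import Pool.Agent.Work.MP_9d4fac_cf.B_R3
import Pool.Agent.Work.MP_9d4fac_cf.B_SCU
import Pool.Agent.Work.MP_9d4fac_cf.B_SCA
import Pool.Agent.Work.MP_9d4fac_cf.B_ISO
import Pool.Agent.Work.MP_9d4fac_cf.B_CUPS
import Pool.Agent.Work.MP_9d4fac_cf.B_MID
import Pool.Agent.Work.MP_9d4fac_cf.B_CAPS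
import Pool.Agent.Work.MP_9d4fac_cf.B_BRA
import Pool.Agent.Work.MP_9d4fac_cf.B_KEI
import Pool.Agent.Work.MP_9d4fac_cf.B_TWO
import Pool.Agent.Work.MP_9d4fac_cf.B_LOW
import Pool.Agent.Work.MP_9d4fac_cf.B_SPN
import Pool.Agent.Work.MP_9d4fac_cf.B_LSU
import Pool.Agent.Work.MP_9d4fac_cf.B_CNT
import Pool.Agent.Work.MP_9d4fac_cf.B_FL2
import Pool.Agent.Work.MP_9d4fac_cf.B_LK
import Pool.Agent.Work.MP_9d4fac_gt.S_bdd

/-!
# The braid index, linking numbers and Fox colourings of pairs of components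

The points of an oriented link diagram `D` are labelled such that the label does not change along the link (the labels are sets of
components). The labels are divided into blocks; a Fox colouring modulo `N` of the sublinks of the blocks is given. If a block
consists of two labels `A`, `B` and two colours of the block satisfy `2 lk (A, B) (c - c') ≠ 0`, then `A` and `B` together have at
least three strands in every closed braid (otherwise the sublink is the torus link `T (2, 2 lk)`).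
-/

set_option autoImplicit false

namespace Pool.Agent.Results.MP_9d4fac_gt.ConflictPairs

open Pool.BraidIndex Pool.BraidIndex.Cf Pool.BraidIndex.Cox

/-- `lab` is constant along the strands of the diagram `D`, and `c` satisfies the rule of Fox (`2 * over - under` behind the
crossing) at the crossings of two strands of the same block and does not change at the other crossings. The points of `D` are
the pairs (level, number of the strand); the piece number `t` lies between the levels `t` and `t + 1`. -/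
structure Colouring (D : List Piece) {κ π : Type} [DecidableEq π] (N : ℕ) (pr : κ → π) (lab : ℕ × ℕ → κ)
    (c : ℕ × ℕ → ZMod N) : Prop where
  left : ∀ t i k j, D[t]? = some (k, i) → j < i → lab (t, j) = lab (t + 1, j) ∧ c (t, j) = c (t + 1, j)
  right : ∀ t i k j, D[t]? = some (k, i) → i + k.ar + j < (ori D t).length →
    lab (t, i + k.ar + j) = lab (t + 1, i + k.oar + j) ∧ c (t, i + k.ar + j) = c (t + 1, i + k.oar + j)
  cup : ∀ t i o, D[t]? = some (.cup o, i) → lab (t + 1, i) = lab (t + 1, i + 1) ∧ c (t + 1, i) = c (t + 1, i + 1)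
  cap : ∀ t i, D[t]? = some (.cap, i) → lab (t, i) = lab (t, i + 1) ∧ c (t, i) = c (t, i + 1)
  crossT : ∀ t i, D[t]? = some (.cross true, i) → lab (t + 1, i) = lab (t, i + 1) ∧ lab (t + 1, i + 1) = lab (t, i) ∧
    c (t + 1, i + 1) = c (t, i) ∧
    c (t + 1, i) = if pr (lab (t, i)) = pr (lab (t, i + 1)) then 2 * c (t, i) - c (t, i + 1) else c (t, i + 1)
  crossF : ∀ t i, D[t]? = some (.cross false, i) → lab (t + 1, i) = lab (t, i + 1) ∧ lab (t + 1, i + 1) = lab (t, i) ∧
    c (t + 1, i) = c (t, i + 1) ∧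
    c (t + 1, i + 1) = if pr (lab (t, i + 1)) = pr (lab (t, i)) then 2 * c (t, i + 1) - c (t, i) else c (t, i)

theorem isCol {D : List Piece} {κ π : Type} [DecidableEq κ] [DecidableEq π] {N : ℕ} {pr : κ → π} {lab : ℕ × ℕ → κ}
    {c : ℕ × ℕ → ZMod N} (h : Colouring D N pr lab c) (K : Kei (κ × ZMod N) (Lt κ π N)) (hop : K.op = opC N pr) :
    IsCol K D fun q => (lab q, c q) where
  left t i k j h1 h2 := Prod.ext (h.left t i k j h1 h2).1 (h.left t i k j h1 h2).2
  right t i k j h1 h2 := Prod.ext (h.right t i k j h1 h2).1 (h.right t i k j h1 h2).2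
  cup t i o h1 := Prod.ext (h.cup t i o h1).1 (h.cup t i o h1).2
  cap t i h1 := Prod.ext (h.cap t i h1).1 (h.cap t i h1).2
  crossT t i h1 := by
    obtain ⟨a, b, d, e⟩ := h.crossT t i h1
    rw [hop]
    exact ⟨Prod.ext a e, Prod.ext b d⟩
  crossF t i h1 := by
    obtain ⟨a, b, d, e⟩ := h.crossF t i h1
    rw [hop]
    exact ⟨Prod.ext a d, Prod.ext b e⟩

theorem result (D : List Piece) (hD : IsDiagram D) (κ π : Type) [Fintype κ] [DecidableEq κ] [DecidableEq π] (N : ℕ)
    (pr : κ → π) (lab : ℕ × ℕ → κ) (c : ℕ × ℕ → ZMod N) (hcol : Colouring D N pr lab c)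
    (hsurj : ∀ k, ∃ q, InR D q ∧ lab q = k) (S : Finset (κ × κ))
    (hS : ∀ p ∈ S, p.1 ≠ p.2 ∧ pr p.1 = pr p.2 ∧ (∀ l, pr l = pr p.1 → l = p.1 ∨ l = p.2) ∧
      ∃ q q', InR D q ∧ InR D q' ∧ pr (lab q) = pr p.1 ∧ pr (lab q') = pr p.1 ∧
        (lk2 D lab p.1 p.2 : ZMod N) * (c q - c q') ≠ 0)
    (hdisj : ∀ p ∈ S, ∀ p' ∈ S, pr p.1 = pr p'.1 → p = p') (n : ℕ) (w : List (ℕ × Bool)) (hw : IsBraidWord n w)
    (h : Isotopic D (braidClosure n w)) :
    Fintype.card κ + S.card ≤ n ∧
      ∀ X, Admissible D X → circles D ≤ X.card + (Fintype.card κ + S.card) → circles D ≤ n + ind D := by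
  have h1 : Fintype.card κ + S.card ≤ n :=
    p_FIN (p_ISO p_FAR p_ZIG p_R1 p_R2 p_R3 p_SCU p_SCA) (p_BRA p_CUPS p_MID p_CAPS) p_KEI p_TWO p_LOW p_SPN p_LSU p_CNT
      p_FL2 p_LK D hD κ π N pr lab c (fun K hop => isCol hcol K hop) hsurj S hS hdisj n w hw h
  refine ⟨h1, fun X hX hc => ?_⟩
  have h3 : X.card ≤ ind D := le_csSup (p_bdd D) ⟨X, hX, rfl⟩
  omega

end Pool.Agent.Results.MP_9d4fac_gt.ConflictPairs
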