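import Pool.Agent.Work.MP_9d4fac_mix.Final

/-!
# The braid index and the cycle index of the Seifert graph

Let `D` be an oriented link diagram and `X` a set of crossings such that all other crossings come in rows of consecutive equal
crossings of two strands, parallel or antiparallel. Smooth the crossings in `X` in the orientation respecting way, all others
vertically, that is along the row (the Seifert smoothing, if the strands of the row are parallel), and identify circles which meet
at a crossing in `X`. If for any two different classes `a`, `b` of circles one integer `m a b ≥ 2` divides the lengths of all rows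
between circles of `a` and `b`, then every diagram of the link of `D` has at least as many cups as there are classes, in particular
every closed braid which represents the link has at least `s' - |X|` strands, where `s'` is the number of circles of this
smoothing, and at least `s(D) - ind(D)` strands if `X` contains less than half of every circuit of the Seifert graph and `s' ≥ s(D)`,
for example if the strands of all rows are parallel.

Proof: the circles are coloured by the reflections of the geometric representation of the Coxeter matrix `m`.
-/

set_option autoImplicit false

namespace Pool.Agent.Results.MP_9d4fac_gt.ReflectionRows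

open Pool.BraidIndex Pool.BraidIndex.Cox Pool.BraidIndex.Mix

theorem result (D : List Piece) (hD : IsDiagram D) (X : Finset ℕ) (m : MCls D X → MCls D X → ℕ)
    (hm : ∀ a b, a ≠ b → 2 ≤ m a b ∧ m a b = m b a) (hrows : RowsM D X m 0 D) :
    (∀ D', Isotopic D D' → Nat.card (MCls D X) ≤ cups D') ∧
    (∀ (n : ℕ) (w : List (ℕ × Bool)), Isotopic D (braidClosure n w) →
      Nat.card (MCls D X) ≤ n ∧ mcircles D X ≤ n + X.card ∧
        (Admissible D X → circles D ≤ mcircles D X → circles D ≤ n + ind D)) ∧
    ((∀ t s i, D[t]? = some (.cross s, i) → t ∉ X → Par D t i) → mcircles D X = circles D) := by
  have h0 : ∀ D', Isotopic D D' → Nat.card (MCls D X) ≤ cups D' := m_final D hD X m hm hrows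
  refine ⟨h0, fun n w h => ?_, fun h => mcircles_par D X h⟩
  have h1 := h0 _ h
  rw [cups_braid] at h1
  have h2 := m_cls D X
  refine ⟨h1, by omega, fun hX hs => ?_⟩
  have h3 : X.card ≤ ind D := le_csSup (p_bdd D) ⟨X, hX, rfl⟩
  omega

end Pool.Agent.Results.MP_9d4fac_gt.ReflectionRows
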